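import Pool.Agent.H60.Slab.Values

set_option autoImplicit false

open MeasureTheory Set

namespace Pool.Agent.Results.MP_a54a8f_gt.FirstPhase

open Pool.Agent.H60.Slab

/-- In every dimension `n ≥ 2` and for every `0 < t < sqrt n`, the slab orthogonal to `f_1` has
minimal volume among all slabs of half-width `t` exactly when `t ≤ 2 (sqrt 2 - 1)`. -/
theorem result (n : ℕ) (hn : 2 ≤ n) (t : ℝ) (ht0 : 0 < t) (htn : t < Real.sqrt n) :
    (∀ a : Fin n → ℝ, ∑ i, a i ^ 2 = 1 →
      volume (slab n (stdVec n 1) t) ≤ volume (slab n a t)) ↔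
    t ≤ 2 * (Real.sqrt 2 - 1) := by
  obtain ⟨k, rfl⟩ : ∃ k, n = k + 2 := ⟨n - 2, by omega⟩
  have hs1 := sqrt2_lb
  have hs2 := sqrt2_ub
  have hss := sqrt2_sq
  have hpow : (0 : ℝ) < 2 ^ (k + 2) := by positivity
  constructor
  · intro h
    by_contra hcon
    push Not at hcon
    rcases lt_or_ge t 1 with h1 | h1
    · have h2 := (slab_le_iff _ _ t).1 (h (stdVec (k + 2) 2) (std_unit (by norm_num) (by omega)))
      rw [FV_f1 (k + 1) ht0.le, FV_f2 k ht0.le (by linarith), min_eq_right h1.le] at h2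
      have h3 := le_of_mul_le_mul_left h2 hpow
      unfold vv at h3
      nlinarith
    · have h2 := (slab_le_iff _ _ t).1 (h (stdVec (k + 2) (k + 2)) (std_unit (by omega) le_rfl))
      rw [FV_f1 (k + 1) ht0.le, min_eq_left h1, mul_one] at h2
      have h3 := FV_fn_lt (n := k + 2) (by omega) ht0.le htn
      linarith
  · intro h a ha
    rw [slab_le_iff, FV_f1 (k + 1) ht0.le, min_eq_right (by linarith)]
    exact phase_one a ha ht0.le h

end Pool.Agent.Results.MP_a54a8f_gt.FirstPhase
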