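import Pool.Agent.H60.Big.Schur
import Pool.Agent.H60.Slab.Values

set_option autoImplicit false

open MeasureTheory Set

namespace Pool.Agent.Results.MP_a54a8f_gt.LastPhase

open Pool.Agent.H60.Slab

/-- In every dimension `n ≥ 1` and for every `t ≥ √(10/3)`, the slab orthogonal to the main
diagonal `f_n` has minimal volume among all slabs of half-width `t` of the cube. -/
theorem result : ∀ n : ℕ, 1 ≤ n → ∀ t : ℝ, Real.sqrt (10 / 3) ≤ t → ∀ a : Fin n → ℝ,
    ∑ i, a i ^ 2 = 1 → volume (slab n (stdVec n n) t) ≤ volume (slab n a t) := by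
  intro n hn t ht a ha
  rw [slab_le_iff]
  have h : stdVec n n = fun _ : Fin n => 1 / Real.sqrt n := by
    ext i
    simp [stdVec]
  rw [h]
  have h0 : 0 < Real.sqrt (10 / 3) := Real.sqrt_pos.2 (by norm_num)
  have h1 : 10 / 3 ≤ t ^ 2 := by
    rw [← Real.sq_sqrt (by norm_num : (0 : ℝ) ≤ 10 / 3)]
    exact pow_le_pow_left₀ h0.le ht 2
  exact Pool.Agent.H60.Big.FV_min' hn (h0.trans_le ht) (by linarith) a ha

end Pool.Agent.Results.MP_a54a8f_gt.LastPhase
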