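import Pool.Agent.H60.Slab.Values

set_option autoImplicit false

open MeasureTheory Set

namespace Pool.Agent.Results.MP_a54a8f_gt.SecondPhase

open Pool.Agent.H60.Slab

/-- In every dimension `n ≥ 2` and for every `0 < t ≤ 17/20`, the slab orthogonal to `f_2` has
minimal volume among all slabs of half-width `t` exactly when `2 (sqrt 2 - 1) ≤ t`. -/
theorem result (n : ℕ) (hn : 2 ≤ n) (t : ℝ) (ht0 : 0 < t) (ht1 : t ≤ 17 / 20) :
    (∀ a : Fin n → ℝ, ∑ i, a i ^ 2 = 1 →
      volume (slab n (stdVec n 2) t) ≤ volume (slab n a t)) ↔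
    2 * (Real.sqrt 2 - 1) ≤ t := by
  obtain ⟨k, rfl⟩ : ∃ k, n = k + 2 := ⟨n - 2, by omega⟩
  have hs1 := sqrt2_lb
  have hs2 := sqrt2_ub
  have hss := sqrt2_sq
  have hpow : (0 : ℝ) < 2 ^ (k + 2) := by positivity
  constructor
  · intro h
    by_contra hcon
    push Not at hcon
    have h2 := (slab_le_iff _ _ t).1 (h (stdVec (k + 2) 1) (std_unit (by norm_num) (by omega)))
    rw [FV_f1 (k + 1) ht0.le, FV_f2 k ht0.le (by linarith), min_eq_right (by linarith)] at h2
    have h3 := le_of_mul_le_mul_left h2 hpow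
    unfold vv at h3
    nlinarith
  · intro h a ha
    rw [slab_le_iff, FV_f2 k ht0.le (by linarith)]
    exact phase_two a ha h (by norm_num at *; linarith)

end Pool.Agent.Results.MP_a54a8f_gt.SecondPhase
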